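import Mathlib

/-!
Definitions: `H^∞(D)`, its maximal ideal space, the corona, the fibres, self-similarity, the domains.
-/

set_option autoImplicit false

open Metric Set Filter Topology
open scoped ContDiff

namespace Pool.Agent.H272.Self

/-- `ℂ^m` with the Euclidean norm. -/
abbrev V (m : ℕ) := EuclideanSpace ℂ (Fin m)

/-- The open unit ball of `ℂ^n`. -/
def Ball (n : ℕ) : Set (V n) := ball 0 1

/-- `H^∞(D)`: the bounded holomorphic functions on the open set `D`. -/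
structure Hinf {m : ℕ} (D : Set (V m)) where
  /-- the function -/
  val : D → ℂ
  hol : ∃ F : V m → ℂ, DifferentiableOn ℂ F D ∧ ∀ z : D, F z = val z
  bdd : ∃ C : ℝ, ∀ z, ‖val z‖ ≤ C

/-- `φ` is a character of `H^∞(D)`: additive, multiplicative, and `φ c = c` for the constants `c`
(so it is a nonzero multiplicative linear functional). -/
def IsChar {m : ℕ} {D : Set (V m)} (φ : Hinf D → ℂ) : Prop :=
  (∀ f g h : Hinf D, (∀ z, h.1 z = f.1 z + g.1 z) → φ h = φ f + φ g) ∧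
  (∀ f g h : Hinf D, (∀ z, h.1 z = f.1 z * g.1 z) → φ h = φ f * φ g) ∧
  ∀ (c : ℂ) (h : Hinf D), (∀ z, h.1 z = c) → φ h = c

/-- The maximal ideal space `M(H^∞(D))`: the characters, with the Gelfand topology (the topology of
pointwise convergence on `H^∞(D)`, the subspace topology of the product). -/
abbrev MaxSpace {m : ℕ} (D : Set (V m)) := {φ : Hinf D → ℂ // IsChar φ}

/-- The corona: the characters which are not in the closure of the set of the evaluations at the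
points of `D`. -/
def Corona {m : ℕ} (D : Set (V m)) : Set (MaxSpace D) :=
  (closure {φ : MaxSpace D | ∃ z : D, ∀ f : Hinf D, φ.1 f = f.1 z})ᶜ

/-- The characters over the boundary point `p`: the value at `f` is the limit of `f` at `p`
whenever this limit exists (in particular this holds for the coordinates). -/
def Fibre {m : ℕ} (D : Set (V m)) (p : V m) : Set (MaxSpace D) :=
  {φ | ∀ (f : Hinf D) (c : ℂ), Tendsto f.1 (comap Subtype.val (𝓝 p)) (𝓝 c) → φ.1 f = c}

/-- `R` is a homomorphism of the algebra `H^∞(D)` to the algebra `H^∞(D')`: additive, multiplicative, and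
the identity on the constants. -/
def IsHom {m n : ℕ} {D : Set (V m)} {D' : Set (V n)} (R : Hinf D → Hinf D') : Prop :=
  (∀ f g h : Hinf D, (∀ z, h.1 z = f.1 z + g.1 z) → ∀ z, (R h).1 z = (R f).1 z + (R g).1 z) ∧
  (∀ f g h : Hinf D, (∀ z, h.1 z = f.1 z * g.1 z) → ∀ z, (R h).1 z = (R f).1 z * (R g).1 z) ∧
  ∀ (c : ℂ) (h : Hinf D), (∀ z, h.1 z = c) → ∀ z, (R h).1 z = c

/-- `R` does not increase the supremum norm. -/
def Contractive {m n : ℕ} {D : Set (V m)} {D' : Set (V n)} (R : Hinf D → Hinf D') : Prop :=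
  ∀ (g : Hinf D) (C : ℝ), (∀ z, ‖g.1 z‖ ≤ C) → ∀ z, ‖(R g).1 z‖ ≤ C

/-- The free ultrafilters on the natural numbers. -/
def Free : Type := {𝒰 : Ultrafilter ℕ // (𝒰 : Filter ℕ) ≤ cofinite}

/-- `F` is holomorphic and bounded by some constant on `D`. -/
def BddHol {m : ℕ} (D : Set (V m)) (F : V m → ℂ) : Prop :=
  DifferentiableOn ℂ F D ∧ ∃ C : ℝ, ∀ z ∈ D, ‖F z‖ ≤ C

/-- The corona theorem holds on `D`: whenever `F_1, …, F_N` are bounded holomorphic functions on `D`
with `∑ |F_j|² > δ` on `D` for some `δ > 0`, there are bounded holomorphic `h_j` with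
`∑ F_j h_j = 1` on `D`. -/
def CoronaTheorem {m : ℕ} (D : Set (V m)) : Prop :=
  ∀ (N : ℕ) (F : Fin N → V m → ℂ), (∀ j, BddHol D (F j)) →
    (∃ δ : ℝ, 0 < δ ∧ ∀ z ∈ D, δ < ∑ j, ‖F j z‖ ^ 2) →
      ∃ h : Fin N → V m → ℂ, (∀ j, BddHol D (h j)) ∧ ∀ z ∈ D, ∑ j, F j z * h j z = 1

/-- The Bezout equation `∑ F_j g_j = 1` has a holomorphic solution with `|g_j| ≤ C` on `D`. -/
def Solvable {m N : ℕ} (D : Set (V m)) (C : ℝ) (F : Fin N → V m → ℂ) : Prop :=
  ∃ g : Fin N → V m → ℂ, (∀ j, DifferentiableOn ℂ (g j) D) ∧ (∀ j, ∀ z ∈ D, ‖g j z‖ ≤ C) ∧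
    ∀ z ∈ D, ∑ j, F j z * g j z = 1

/-- Self-similarity of `M(H^∞(D))` over the boundary point `p`. There are a holomorphic map `Φ` of `D`
into the unit ball `B` of `ℂ^n` and, for every free ultrafilter `𝒰`, a contractive homomorphism `R 𝒰` of
`H^∞(D)` to `H^∞(B)` with dual map `T 𝒰`, such that

* `R 𝒰 g = f` if `g = f ∘ Φ` (so `f ↦ f ∘ Φ` is an isometric embedding of the algebra `H^∞(B)` into
  `H^∞(D)`, and `R 𝒰` is onto);
* `T 𝒰` is a homeomorphism of the whole space `M(H^∞(B))` onto a closed subset of the fibre over `p`,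
  which maps the corona into the corona, and the complement of the corona into the complement;
* these copies of `M(H^∞(B))` are pairwise disjoint;
* for all holomorphic `f_1, …, f_N` on `B`, all `C` and all neighbourhoods `W` of `p`: the Bezout
  equation for `f` is solvable on `B` with the bound `C` if and only if the one for `f ∘ Φ` is solvable
  on `D ∩ W` with the bound `C`. -/
def SelfSimilar {m : ℕ} (D : Set (V m)) (p : V m) (n : ℕ) : Prop :=
  ∃ (Φ : V m → V n) (R : Free → Hinf D → Hinf (Ball n))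
    (T : Free → MaxSpace (Ball n) → MaxSpace D),
    DifferentiableOn ℂ Φ D ∧ MapsTo Φ D (Ball n) ∧
    (∀ 𝒰, IsHom (R 𝒰) ∧ Contractive (R 𝒰)) ∧
    (∀ 𝒰 (f : Hinf (Ball n)) (g : Hinf D), (∀ z : D, ∃ hz : Φ z ∈ Ball n,
      g.1 z = f.1 ⟨Φ z, hz⟩) → R 𝒰 g = f) ∧
    (∀ 𝒰 φ g, (T 𝒰 φ).1 g = φ.1 (R 𝒰 g)) ∧
    (∀ 𝒰, IsClosedEmbedding (T 𝒰)) ∧
    (∀ 𝒰 φ, T 𝒰 φ ∈ Fibre D p ∧ (T 𝒰 φ ∈ Corona D ↔ φ ∈ Corona (Ball n))) ∧
    (∀ 𝒰 𝒱, 𝒰 ≠ 𝒱 → Disjoint (range (T 𝒰)) (range (T 𝒱))) ∧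
    ∀ (N : ℕ) (f : Fin N → V n → ℂ) (C : ℝ) (W : Set (V m)),
      (∀ j, DifferentiableOn ℂ (f j) (Ball n)) → IsOpen W → p ∈ W →
        (Solvable (Ball n) C f ↔ Solvable (D ∩ W) C (fun j x => f j (Φ x)))

/-- `ρ` is of class `C^k` on `U`. -/
def Smooth {m : ℕ} (k : WithTop ℕ∞) (ρ : V m → ℝ) (U : Set (V m)) : Prop := ContDiffOn ℝ k ρ U

/-- The derivative of `ρ` at `p` in the direction `v`. -/
noncomputable def dr {m : ℕ} (ρ : V m → ℝ) (p v : V m) : ℝ := fderiv ℝ ρ p v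

/-- `D = {ρ < 0}` for the function `ρ`, which is of class `C^k` on the neighbourhood `U` of the closure
of `D`, and the derivative of `ρ` does not vanish on the boundary. -/
def Defining {m : ℕ} (k : WithTop ℕ∞) (D U : Set (V m)) (ρ : V m → ℝ) : Prop :=
  IsOpen U ∧ closure D ⊆ U ∧ Smooth k ρ U ∧ D = {x ∈ U | ρ x < 0} ∧
    ∀ p ∈ frontier D, ∃ v, dr ρ p v ≠ 0

/-- Strictly pseudoconvex domains: bounded domains `{ρ < 0}`, `ρ` of class `C^∞` on a neighbourhood of
the closure, `dρ ≠ 0` on the boundary, with positive definite Levi form on the complex tangent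
spaces of the boundary (the Levi form of `v` is a quarter of the sum of the second derivatives of
`ρ` in the directions `v` and `i v`). -/
def StrictlyPseudoconvex {m : ℕ} (D : Set (V m)) : Prop :=
  IsOpen D ∧ IsConnected D ∧ Bornology.IsBounded D ∧
    ∃ (U : Set (V m)) (ρ : V m → ℝ), Defining ∞ D U ρ ∧ ∀ p ∈ frontier D, ∀ v : V m, v ≠ 0 →
      dr ρ p v = 0 → dr ρ p (Complex.I • v) = 0 →
        0 < dr (fun x => dr ρ x v) p v + dr (fun x => dr ρ x (Complex.I • v)) p (Complex.I • v)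

/-- Bounded nonempty open sets with boundary of class `C³`. -/
def SmoothDomain {m : ℕ} (D : Set (V m)) : Prop :=
  IsOpen D ∧ D.Nonempty ∧ Bornology.IsBounded D ∧
    ∃ (U : Set (V m)) (ρ : V m → ℝ), Defining 3 D U ρ

/-- `p` is a boundary point of `D` at maximal distance from some point `c`, and the boundary of `D` is
of class `C³` near `p`. -/
def Exposed {m : ℕ} (D : Set (V m)) (p : V m) : Prop :=
  p ∈ frontier D ∧ (∃ c, ∀ x ∈ D, ‖x - c‖ ≤ ‖p - c‖) ∧
    ∃ (U : Set (V m)) (ρ : V m → ℝ), IsOpen U ∧ p ∈ U ∧ Smooth 3 ρ U ∧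
      (∀ x ∈ U, x ∈ D ↔ ρ x < 0) ∧ ∃ v, dr ρ p v ≠ 0

end Pool.Agent.H272.Self
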