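import Mathlib
import Pool.Agent.H303.CB.Fin
import Pool.Agent.H272.Self.Defs

/-!
Strictly pseudoconvex domains, smooth domains, exposed points.
-/

set_option autoImplicit false

open Metric Set Filter Topology
open scoped ContDiff

namespace Pool.Agent.H272.Self

theorem spc_smooth {m : ℕ} {D : Set (V m)} (h : StrictlyPseudoconvex D) : SmoothDomain D := by
  obtain ⟨h1, h2, h3, U, ρ, ⟨h4, h5, h6, h7, h8⟩, -⟩ := h
  exact ⟨h1, h2.nonempty, h3, U, ρ, h4, h5,
      ContDiffOn.of_le h6 (WithTop.coe_le_coe.2 (le_top : ((3 : ℕ) : ℕ∞) ≤ ⊤)), h7, h8⟩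

theorem exists_exposed {m : ℕ} (hm : 0 < m) {D : Set (V m)} (h : SmoothDomain D) :
    ∃ p, Exposed D p := by
  obtain ⟨hD, hne, hb, U, ρ, hU, hDU, hρ, hUD, hg⟩ := h
  have hcomp : IsCompact (closure D) := hb.isCompact_closure
  obtain ⟨p, hp, hmax⟩ := hcomp.exists_isMaxOn (hne.mono subset_closure)
    ((continuous_id.sub continuous_const).norm.continuousOn (s := closure D) :
      ContinuousOn (fun x : V m => ‖x - 0‖) (closure D))
  have hmax' : ∀ x ∈ D, ‖x - 0‖ ≤ ‖p - 0‖ := fun x hx => hmax (subset_closure hx)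
  obtain ⟨h1, h2⟩ := Pool.Agent.H303.CB.farthest hm hD hne hp hmax'
  have hpf : p ∈ frontier D := by
    rw [hD.frontier_eq]
    refine ⟨hp, fun hpD => ?_⟩
    have := h2 hpD
    rw [mem_ball, dist_eq_norm] at this
    exact lt_irrefl _ this
  refine ⟨p, hpf, ⟨0, hmax'⟩, U, ρ, hU, hDU hp, hρ, fun x hx => ?_, hg p hpf⟩
  constructor
  · intro h1
    rw [hUD] at h1
    exact h1.2
  · intro h1
    rw [hUD]
    exact ⟨hx, h1⟩

theorem exposed_ball {m : ℕ} {p : V m} (hp : ‖p‖ = 1) : Exposed (Ball m) p := by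
  change Exposed (ball (0 : V m) 1) p
  refine ⟨?_, ⟨0, fun x hx => ?_⟩, univ, fun x => ‖x‖ ^ 2 - 1, isOpen_univ, mem_univ p, ?_, ?_, p, ?_⟩
  · rw [frontier_ball _ one_ne_zero, mem_sphere_zero_iff_norm]
    exact hp
  · rw [sub_zero, sub_zero, hp]
    exact (mem_ball_zero_iff.1 hx).le
  · exact ((contDiff_norm_sq ℝ).sub contDiff_const).contDiffOn
  · intro x _
    rw [mem_ball_zero_iff]
    constructor
    · intro h; nlinarith [norm_nonneg x]
    · intro h
      by_contra hc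
      push Not at hc
      nlinarith
  · have h1 : HasFDerivAt (fun x : V m => ‖x‖ ^ 2 - 1) (2 • (innerSL ℝ p)) p :=
      (hasStrictFDerivAt_norm_sq p).hasFDerivAt.sub_const 1
    rw [dr, h1.fderiv]
    simp [hp]

end Pool.Agent.H272.Self
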