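import Mathlib
import Pool.Agent.H272.Self.Defs
import Pool.Agent.H272.SS.Asm

/-!
Comparison with the character space of the Banach algebra `SS.Hinf D`.
-/

set_option autoImplicit false

open Metric Set Filter Topology Cardinal
open scoped BoundedContinuousFunction

namespace Pool.Agent.H272.Self

variable {m n : ℕ} {D : Set (V m)} {p : V m}

theorem Hinf.ext' {f g : Hinf D} (h : ∀ z, f.1 z = g.1 z) : f = g := by
  cases f; cases g
  congr
  funext z
  exact h z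

theorem exists_toB (f : Hinf D) : ∃ g : SS.Hinf D, ∀ z : D, (g : D →ᵇ ℂ) z = f.1 z := by
  obtain ⟨F, hF, hFf⟩ := f.hol
  obtain ⟨C, hC⟩ := f.bdd
  obtain ⟨g, hg⟩ := SS.exists_mk F hF (C := C) fun z hz => by
    rw [hFf ⟨z, hz⟩]; exact hC _
  exact ⟨g, fun z => by rw [hg, hFf]⟩

/-- to the Banach algebra -/
noncomputable def toB (f : Hinf D) : SS.Hinf D := (exists_toB f).choose

theorem toB_apply (f : Hinf D) (z : D) : (toB f : D →ᵇ ℂ) z = f.1 z := (exists_toB f).choose_spec z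

/-- from the Banach algebra -/
noncomputable def ofB (g : SS.Hinf D) : Hinf D where
  val := fun z => (g : D →ᵇ ℂ) z
  hol := by
    obtain ⟨F, hF, hFg⟩ := g.2
    exact ⟨F, hF, hFg⟩
  bdd := ⟨‖g‖, fun z => SS.norm_coe_le g z⟩

theorem ofB_apply (g : SS.Hinf D) (z : D) : (ofB g).1 z = (g : D →ᵇ ℂ) z := rfl

theorem toB_ofB (g : SS.Hinf D) : toB (ofB g) = g := SS.hinf_ext fun z => by
  rw [toB_apply, ofB_apply]

theorem ofB_toB (f : Hinf D) : ofB (toB f) = f := Hinf.ext' fun z => by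
  rw [ofB_apply, toB_apply]

theorem isChar_of (φ : SS.MaxSpace D) : IsChar (fun f : Hinf D => φ (toB f)) := by
  refine ⟨fun f g h hh => ?_, fun f g h hh => ?_, fun c h hh => ?_⟩
  · have : toB h = toB f + toB g := SS.hinf_ext fun z => by
      rw [toB_apply, hh]
      change _ = (toB f : D →ᵇ ℂ) z + (toB g : D →ᵇ ℂ) z
      rw [toB_apply, toB_apply]
    simp only [this, map_add]
  · have : toB h = toB f * toB g := SS.hinf_ext fun z => by
      rw [toB_apply, hh]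
      change _ = (toB f : D →ᵇ ℂ) z * (toB g : D →ᵇ ℂ) z
      rw [toB_apply, toB_apply]
    simp only [this, map_mul]
  · have : toB h = algebraMap ℂ _ c := SS.hinf_ext fun z => by
      rw [toB_apply, hh]
      rfl
    simp only [this, AlgHomClass.commutes]
    rfl

theorem exists_char (hD : IsOpen D) (ψ : MaxSpace D) :
    ∃ φ : SS.MaxSpace D, ∀ g, φ g = ψ.1 (ofB g) := by
  have := SS.complete_Hinf hD
  refine ⟨WeakDual.CharacterSpace.equivAlgHom.symm
    { toFun := fun g => ψ.1 (ofB g)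
      map_one' := ψ.2.2.2 1 _ fun z => rfl
      map_mul' := fun f g => ψ.2.2.1 _ _ _ fun z => rfl
      map_zero' := ψ.2.2.2 0 _ fun z => rfl
      map_add' := fun f g => ψ.2.1 _ _ _ fun z => rfl
      commutes' := fun c => ψ.2.2.2 c _ fun z => rfl }, fun g => rfl⟩

/-- the homeomorphism of the character spaces -/
theorem exists_homeo (hD : IsOpen D) : ∃ E : MaxSpace D ≃ₜ SS.MaxSpace D,
    (∀ ψ g, E ψ g = ψ.1 (ofB g)) ∧ ∀ φ f, (E.symm φ).1 f = φ (toB f) := by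
  choose E hE using exists_char hD
  refine ⟨
    { toFun := E
      invFun := fun φ => ⟨fun f => φ (toB f), isChar_of φ⟩
      left_inv := fun ψ => Subtype.ext (funext fun f => by
        change E ψ (toB f) = ψ.1 f
        rw [hE, ofB_toB])
      right_inv := fun φ => WeakDual.CharacterSpace.ext fun g => by
        rw [hE]
        change φ (toB (ofB g)) = φ g
        rw [toB_ofB]
      continuous_toFun := by
        refine Continuous.subtype_mk (f := fun ψ : MaxSpace D => ((E ψ : SS.MaxSpace D) :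
          WeakDual ℂ (SS.Hinf D))) (WeakDual.continuous_of_continuous_eval fun g => ?_) _
        have h1 : Continuous fun ψ : MaxSpace D => ψ.1 (ofB g) :=
          (continuous_apply (ofB g)).comp continuous_subtype_val
        refine h1.congr fun ψ => ?_
        exact (hE ψ g).symm
      continuous_invFun := by
        refine Continuous.subtype_mk (continuous_pi fun f => ?_) _
        exact map_continuous (WeakDual.gelfandTransform ℂ (SS.Hinf D) (toB f)) }, hE, fun φ f => rfl⟩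

theorem corona_iff {E : MaxSpace D ≃ₜ SS.MaxSpace D}
    (h1 : ∀ ψ g, E ψ g = ψ.1 (ofB g)) (ψ : MaxSpace D) : E ψ ∈ SS.Corona D ↔ ψ ∈ Corona D := by
  have h2 : {φ : MaxSpace D | ∃ z : D, ∀ f : Hinf D, φ.1 f = f.1 z} = E ⁻¹' SS.Points D := by
    ext φ
    constructor
    · rintro ⟨z, hz⟩
      exact ⟨z, fun g => by rw [h1, hz]; rfl⟩
    · rintro ⟨z, hz⟩
      refine ⟨z, fun f => ?_⟩
      have := hz (toB f)
      rwa [h1, ofB_toB, toB_apply] at this
  rw [SS.Corona, Corona, mem_compl_iff, mem_compl_iff, h2, ← E.preimage_closure]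
  rfl

theorem fibre_iff {E : MaxSpace D ≃ₜ SS.MaxSpace D}
    (h1 : ∀ ψ g, E ψ g = ψ.1 (ofB g)) (ψ : MaxSpace D) : E ψ ∈ SS.Fibre D p ↔ ψ ∈ Fibre D p := by
  constructor
  · intro h f c hf
    have h2 := h (toB f) c (by
      refine hf.congr fun z => ?_
      rw [toB_apply])
    rwa [h1, ofB_toB] at h2
  · intro h g c hg
    rw [h1]
    exact h (ofB g) c hg

theorem coronaTheorem_iff (hD : IsOpen D) : CoronaTheorem D ↔ Corona D = ∅ := by
  obtain ⟨E, h1, h2⟩ := exists_homeo hD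
  have h3 : CoronaTheorem D ↔ SS.CoronaTheorem D := Iff.rfl
  rw [h3, SS.coronaTheorem_iff hD]
  constructor
  · intro h
    rw [eq_empty_iff_forall_notMem]
    intro ψ hψ
    rw [← corona_iff h1, h] at hψ
    exact hψ
  · intro h
    rw [eq_empty_iff_forall_notMem]
    intro φ hφ
    have h4 : E (E.symm φ) ∈ SS.Corona D := by rwa [E.apply_symm_apply]
    rw [corona_iff h1, h] at h4
    exact h4

/-- **Self-similarity from the self-similarity data.** -/
theorem of_ssim (hD : IsOpen D) {Φ : V m → V n} {P : ℕ → V n → V m} {e : Set ℕ → V m → ℂ}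
    (h : SS.SSim D p Φ P e) : SelfSimilar D p n := by
  unfold SelfSimilar Ball
  obtain ⟨R, T, h1, h2, h3, h4, h5, h6⟩ := SS.copies hD h
  obtain ⟨E, hE1, hE2⟩ := exists_homeo hD
  obtain ⟨E', hE'1, hE'2⟩ := exists_homeo (isOpen_ball (x := (0 : V n)) (ε := 1))
  have htoB : ∀ {k : ℕ} {D₁ : Set (V k)} (g h' : Hinf D₁), toB g = toB h' ↔ g = h' := by
    intro k D₁ g h'
    constructor
    · intro hh
      rw [← ofB_toB g, hh, ofB_toB]
    · rintro rfl
      rfl
  refine ⟨Φ, fun 𝒰 g => ofB (R 𝒰 (toB g)), fun 𝒰 φ => E.symm (T 𝒰 (E' φ)), h.dΦ, h.mΦ,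
    fun 𝒰 => ⟨⟨fun f g k hk z => ?_, fun f g k hk z => ?_, fun c k hk z => ?_⟩, fun g C hC z => ?_⟩,
    fun 𝒰 f g hg => ?_, fun 𝒰 φ g => ?_, fun 𝒰 => ?_, fun 𝒰 φ => ⟨?_, ?_⟩, fun 𝒰 𝒱 hne => ?_, ?_⟩
  · have : toB k = toB f + toB g := SS.hinf_ext fun z => by
      rw [toB_apply, hk]
      change _ = (toB f : D →ᵇ ℂ) z + (toB g : D →ᵇ ℂ) z
      rw [toB_apply, toB_apply]
    change (ofB (R 𝒰 (toB k))).1 z = (ofB (R 𝒰 (toB f))).1 z + (ofB (R 𝒰 (toB g))).1 z
    rw [this, map_add]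
    rfl
  · have : toB k = toB f * toB g := SS.hinf_ext fun z => by
      rw [toB_apply, hk]
      change _ = (toB f : D →ᵇ ℂ) z * (toB g : D →ᵇ ℂ) z
      rw [toB_apply, toB_apply]
    change (ofB (R 𝒰 (toB k))).1 z = (ofB (R 𝒰 (toB f))).1 z * (ofB (R 𝒰 (toB g))).1 z
    rw [this, map_mul]
    rfl
  · have : toB k = algebraMap ℂ _ c := SS.hinf_ext fun z => by
      rw [toB_apply, hk]
      rfl
    change (ofB (R 𝒰 (toB k))).1 z = c
    rw [this, AlgHomClass.commutes]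
    rfl
  · obtain ⟨z₀⟩ : Nonempty D := by
      obtain ⟨k, hk⟩ := (SS.P_mem h z).exists
      exact ⟨⟨_, hk⟩⟩
    have hC0 : 0 ≤ C := (norm_nonneg _).trans (hC z₀)
    have h7 : ‖toB g‖ ≤ C := SS.norm_le_of _ hC0 fun z => by rw [toB_apply]; exact hC z
    exact (SS.norm_coe_le (R 𝒰 (toB g)) z).trans ((h1 𝒰 _).trans h7)
  · have h7 := h2 𝒰 (toB f) (toB g) fun z => by
      obtain ⟨hz, h8⟩ := hg z
      exact ⟨hz, by rw [toB_apply, toB_apply, h8]⟩
    change ofB (R 𝒰 (toB g)) = f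
    rw [h7, ofB_toB]
  · change (E.symm (T 𝒰 (E' φ))).1 g = φ.1 (ofB (R 𝒰 (toB g)))
    rw [hE2, h3, hE'1]
  · exact E.symm.isClosedEmbedding.comp ((h4 𝒰).comp E'.isClosedEmbedding)
  · rw [← fibre_iff hE1, E.apply_symm_apply]
    exact (h5 𝒰 _).1
  · rw [← corona_iff hE1, E.apply_symm_apply, (h5 𝒰 _).2,
      corona_iff hE'1]
  · rw [Set.disjoint_left]
    rintro _ ⟨φ, rfl⟩ ⟨ψ, hψ⟩
    have h7 : T 𝒱 (E' ψ) = T 𝒰 (E' φ) := E.symm.injective hψ
    exact Set.disjoint_left.1 (h6 𝒰 𝒱 hne) ⟨_, rfl⟩ ⟨_, h7⟩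
  · intro N f C W hf hW hpW
    exact h.transfer hf hW hpW

/-- **The cardinality of the corona over `p`.** -/
theorem SelfSimilar.card (hD : IsOpen D) (hne : D.Nonempty) (h : SelfSimilar D p n)
    (hc : ¬ CoronaTheorem (Ball n)) :
    #(Corona D ∩ Fibre D p : Set (MaxSpace D)) = 2 ^ (2 ^ ℵ₀ : Cardinal.{0}) := by
  obtain ⟨E, -, -⟩ := exists_homeo hD
  have h1 : #(MaxSpace D) ≤ 2 ^ (2 ^ ℵ₀ : Cardinal.{0}) :=
    (Cardinal.mk_le_of_injective E.injective).trans (SS.card_MaxSpace_le hne)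
  refine le_antisymm ((Cardinal.mk_set_le _).trans h1) (SS.card_Free.trans ?_)
  obtain ⟨Φ, R, T, -, -, -, -, -, -, h2, h3, -⟩ := h
  have h4 : Corona (Ball n) ≠ ∅ := fun h0 => hc ((coronaTheorem_iff isOpen_ball).2 h0)
  obtain ⟨φ, hφ⟩ := nonempty_iff_ne_empty.2 h4
  refine Cardinal.mk_le_of_injective (f := fun 𝒰 : Free =>
    (⟨T 𝒰 φ, ((h2 𝒰 φ).2.2 hφ), (h2 𝒰 φ).1⟩ : (Corona D ∩ Fibre D p : Set (MaxSpace D)))) ?_
  intro 𝒰 𝒱 huv
  by_contra hne
  have h5 : T 𝒰 φ = T 𝒱 φ := congrArg Subtype.val huv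
  exact Set.disjoint_left.1 (h3 𝒰 𝒱 hne) ⟨φ, rfl⟩ (h5 ▸ ⟨φ, rfl⟩)

end Pool.Agent.H272.Self
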